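import Pool.Agent.K1H35.SH.Stm2

/-! Piece NUM2 of project SQ: choice of the parameters. -/

set_option autoImplicit false

namespace Pool.Agent.K1H18.SQ

open Pool.Agent.K1H35.SH

/-- floor bounds -/
lemma fl {a : ℝ} (ha : 2 ≤ a) : (⌊a⌋₊ : ℝ) ≤ a ∧ a / 2 ≤ (⌊a⌋₊ : ℝ) := by
  have h0 : 0 ≤ a := by linarith
  have h1 := Nat.floor_le h0
  have h2 := Nat.lt_floor_add_one a
  exact ⟨h1, by linarith⟩

/-- ceiling bounds -/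
lemma cl {a : ℝ} (ha : 1 ≤ a) : a ≤ (⌈a⌉₊ : ℝ) ∧ (⌈a⌉₊ : ℝ) ≤ 2 * a := by
  have h0 : 0 ≤ a := by linarith
  have h1 := Nat.le_ceil a
  have h2 := Nat.ceil_lt_add_one h0
  exact ⟨h1, by linarith⟩

/-- the facts on the real variables -/
structure Fc (x y l : ℝ) : Prop where
  l1 : 1 ≤ l
  y1 : 1 ≤ y
  x1 : 1 ≤ x
  xl4 : 2 ^ 200 * l ^ 4 ≤ x
  c : ∀ c : ℝ, c ≤ 2 ^ 200 → c * l ≤ x
  c0 : ∀ c : ℝ, c ≤ 2 ^ 200 → c ≤ x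
  xy : ∀ c : ℝ, c ≤ 2 ^ 200 → c ≤ x * y
  xyy : x ≤ x * y ^ 2
  xy2 : x * y ≤ x * y ^ 2
  yy : 2 ^ 40 ≤ y ^ 2
  ly : l ≤ l * y ^ 2

lemma mkFc {x y l : ℝ} (l1 : 1 ≤ l) (hxl : 2 ^ 200 * l ^ 4 ≤ x) (hy20 : (2 : ℝ) ^ 20 ≤ y) :
    Fc x y l := by
  have lpos : 0 < l := lt_of_lt_of_le one_pos l1
  have l4 : l ≤ l ^ 4 := by
    calc l = l ^ 1 := by ring
      _ ≤ l ^ 4 := pow_le_pow_right₀ l1 (by norm_num)
  have hx1 : 2 ^ 200 * l ≤ x := le_trans (mul_le_mul_of_nonneg_left l4 (by positivity)) hxl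
  have hx0 : (2 : ℝ) ^ 200 ≤ x := le_trans (le_mul_of_one_le_right (by positivity) l1) hx1
  have y1 : 1 ≤ y := le_trans (by norm_num) hy20
  have xpos : 0 < x := lt_of_lt_of_le (by positivity) hx0
  have y2 : 1 ≤ y ^ 2 := one_le_pow₀ y1
  refine ⟨l1, y1, le_trans (by norm_num) hx0, hxl, fun c hc => ?_, fun c hc => le_trans hc hx0,
    fun c hc => ?_, le_mul_of_one_le_right xpos.le y2, ?_, ?_, le_mul_of_one_le_right lpos.le y2⟩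
  · exact le_trans (mul_le_mul_of_nonneg_right hc lpos.le) hx1
  · exact le_trans hc (le_trans hx0 (le_mul_of_one_le_right xpos.le y1))
  · calc x * y ≤ (x * y) * y := le_mul_of_one_le_right (by positivity) y1
      _ = x * y ^ 2 := by ring
  · calc (2 : ℝ) ^ 40 = (2 ^ 20) ^ 2 := by norm_num
      _ ≤ y ^ 2 := pow_le_pow_left₀ (by positivity) hy20 2

section
variable {x y l : ℝ} (F : Fc x y l)
include F

lemma px : 0 < x := lt_of_lt_of_le one_pos F.x1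
lemma py : 0 < y := lt_of_lt_of_le one_pos F.y1
lemma pl : 0 < l := lt_of_lt_of_le one_pos F.l1

lemma b_t : (⌊x / 2 ^ 13⌋₊ : ℝ) ≤ x / 2 ^ 13 ∧ x / 2 ^ 14 ≤ (⌊x / 2 ^ 13⌋₊ : ℝ) := by
  have h := fl (a := x / 2 ^ 13) (by
    rw [le_div_iff₀ (by positivity)]; exact F.c0 _ (by norm_num))
  refine ⟨h.1, le_trans (le_of_eq ?_) h.2⟩
  ring

lemma b_h : (⌊x * y / 2 ^ 26⌋₊ : ℝ) ≤ x * y / 2 ^ 26 ∧
    x * y / 2 ^ 27 ≤ (⌊x * y / 2 ^ 26⌋₊ : ℝ) := by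
  have h := fl (a := x * y / 2 ^ 26) (by
    rw [le_div_iff₀ (by positivity)]; exact F.xy _ (by norm_num))
  refine ⟨h.1, le_trans (le_of_eq ?_) h.2⟩
  ring

lemma b_k0 : (⌊y ^ 2 / 2 ^ 36⌋₊ : ℝ) ≤ y ^ 2 / 2 ^ 36 ∧
    y ^ 2 / 2 ^ 37 ≤ (⌊y ^ 2 / 2 ^ 36⌋₊ : ℝ) := by
  have h := fl (a := y ^ 2 / 2 ^ 36) (by
    rw [le_div_iff₀ (by positivity)]; exact le_trans (by norm_num) F.yy)
  refine ⟨h.1, le_trans (le_of_eq ?_) h.2⟩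
  ring

lemma b_km : (⌊x * y ^ 2 / (2 ^ 80 * l)⌋₊ : ℝ) ≤ x * y ^ 2 / (2 ^ 80 * l) ∧
    x * y ^ 2 / (2 ^ 81 * l) ≤ (⌊x * y ^ 2 / (2 ^ 80 * l)⌋₊ : ℝ) := by
  have lp := pl F
  have h := fl (a := x * y ^ 2 / (2 ^ 80 * l)) (by
    rw [le_div_iff₀ (by positivity)]
    refine le_trans (le_of_eq ?_) (le_trans (F.c (2 ^ 81) (by norm_num)) F.xyy)
    ring)
  refine ⟨h.1, le_trans (le_of_eq ?_) h.2⟩
  rw [div_div]
  congr 1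
  ring

lemma b_B {t : ℕ} (ht : x / 2 ^ 14 ≤ (t : ℝ)) :
    (⌊(t : ℝ) / (6 * l)⌋₊ : ℝ) ≤ (t : ℝ) / (6 * l) ∧
    x / (2 ^ 18 * l) ≤ (⌊(t : ℝ) / (6 * l)⌋₊ : ℝ) := by
  have lp := pl F
  have xp := px F
  have h1 : x / (2 ^ 17 * l) ≤ (t : ℝ) / (6 * l) := by
    rw [div_le_div_iff₀ (by positivity) (by positivity)]
    calc x * (6 * l) = 6 * (x * l) := by ring
      _ ≤ 8 * (x * l) := mul_le_mul_of_nonneg_right (by norm_num) (by positivity)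
      _ = x / 2 ^ 14 * (2 ^ 17 * l) := by ring
      _ ≤ (t : ℝ) * (2 ^ 17 * l) := mul_le_mul_of_nonneg_right ht (by positivity)
  have h3 : 2 ≤ x / (2 ^ 17 * l) := by
    rw [le_div_iff₀ (by positivity)]
    refine le_trans (le_of_eq ?_) (F.c (2 ^ 18) (by norm_num))
    ring
  have h := fl (a := (t : ℝ) / (6 * l)) (le_trans h3 h1)
  refine ⟨h.1, le_trans ?_ h.2⟩
  have e : x / (2 ^ 18 * l) = x / (2 ^ 17 * l) / 2 := by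
    rw [div_div]
    congr 1
    ring
  rw [e]
  exact div_le_div_of_nonneg_right h1 (by norm_num)

lemma b_c2 : 2 ^ 22 * (l * y ^ 2) ≤ (⌈2 ^ 22 * (l * y ^ 2)⌉₊ : ℝ) ∧
    (⌈2 ^ 22 * (l * y ^ 2)⌉₊ : ℝ) ≤ 2 ^ 23 * (l * y ^ 2) := by
  have h := cl (a := 2 ^ 22 * (l * y ^ 2)) (one_le_mul_of_one_le_of_one_le (by norm_num)
    (le_trans F.l1 F.ly))
  refine ⟨h.1, le_trans h.2 (le_of_eq ?_)⟩
  ring

lemma b_Dm : 2 ^ 29 * (l ^ 2 * (x * y ^ 4)) ≤ (⌈2 ^ 29 * (l ^ 2 * (x * y ^ 4))⌉₊ : ℝ) ∧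
    (⌈2 ^ 29 * (l ^ 2 * (x * y ^ 4))⌉₊ : ℝ) ≤ 2 ^ 30 * (l ^ 2 * (x * y ^ 4)) := by
  have h := cl (a := 2 ^ 29 * (l ^ 2 * (x * y ^ 4))) (one_le_mul_of_one_le_of_one_le (by norm_num)
    (one_le_mul_of_one_le_of_one_le (one_le_pow₀ F.l1)
      (one_le_mul_of_one_le_of_one_le F.x1 (one_le_pow₀ F.y1))))
  refine ⟨h.1, le_trans h.2 (le_of_eq ?_)⟩
  ring

lemma b_K : 2 ^ 71 * (l ^ 2 * (x * y ^ 3)) ≤ (⌈2 ^ 71 * (l ^ 2 * (x * y ^ 3))⌉₊ : ℝ) ∧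
    (⌈2 ^ 71 * (l ^ 2 * (x * y ^ 3))⌉₊ : ℝ) ≤ 2 ^ 72 * (l ^ 2 * (x * y ^ 3)) := by
  have h := cl (a := 2 ^ 71 * (l ^ 2 * (x * y ^ 3))) (one_le_mul_of_one_le_of_one_le (by norm_num)
    (one_le_mul_of_one_le_of_one_le (one_le_pow₀ F.l1)
      (one_le_mul_of_one_le_of_one_le F.x1 (one_le_pow₀ F.y1))))
  refine ⟨h.1, le_trans h.2 (le_of_eq ?_)⟩
  ring

lemma b_μ : 2 ^ 80 * (l ^ 3 * y ^ 2) ≤ (⌈2 ^ 80 * (l ^ 3 * y ^ 2)⌉₊ : ℝ) ∧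
    (⌈2 ^ 80 * (l ^ 3 * y ^ 2)⌉₊ : ℝ) ≤ 2 ^ 81 * (l ^ 3 * y ^ 2) := by
  have h := cl (a := 2 ^ 80 * (l ^ 3 * y ^ 2)) (one_le_mul_of_one_le_of_one_le (by norm_num)
    (one_le_mul_of_one_le_of_one_le (one_le_pow₀ F.l1) (one_le_pow₀ F.y1)))
  refine ⟨h.1, le_trans h.2 (le_of_eq ?_)⟩
  ring

lemma g8h {h : ℝ} (h1 : h ≤ x * y / 2 ^ 26) : 8 * h ≤ x * y ^ 2 := by
  have h2 := F.xy2
  have h3 : 0 < x * y := mul_pos (px F) (py F)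
  calc 8 * h ≤ 8 * (x * y / 2 ^ 26) := by gcongr
    _ = (x * y) * (1 / 2 ^ 23) := by ring
    _ ≤ (x * y) * 1 := by gcongr; norm_num
    _ ≤ x * y ^ 2 := by rw [mul_one]; exact h2

lemma g8192 {t : ℝ} (h1 : t ≤ x / 2 ^ 13) : 8192 * (t * (x * y ^ 2)) ≤ (x * y) ^ 2 := by
  have xp := px F
  have yp := py F
  calc 8192 * (t * (x * y ^ 2)) ≤ 8192 * (x / 2 ^ 13 * (x * y ^ 2)) := by gcongr
    _ = (x * y) ^ 2 := by ring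

lemma gt0 {t0 : ℝ} (h1 : 8 * x ≤ t0) : 8 * (x * y) ^ 2 ≤ (x * y ^ 2) * t0 := by
  have xp := px F
  have yp := py F
  calc 8 * (x * y) ^ 2 = (x * y ^ 2) * (8 * x) := by ring
    _ ≤ (x * y ^ 2) * t0 := by gcongr

lemma g256 {h t : ℝ} (h1 : h ≤ x * y / 2 ^ 26) (h2 : x / 2 ^ 14 ≤ t) :
    64 * (x * y) * h + 256 * l * (x * y ^ 2) ≤ t * (x * y ^ 2) := by
  have xp := px F
  have yp := py F
  have h3 : x / 2 ^ 20 + 256 * l ≤ x / 2 ^ 14 := by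
    have h4 := F.c (2 ^ 40) (by norm_num)
    have h5 : 256 * l = (2 ^ 40 * l) / 2 ^ 32 := by ring
    have h6 : 256 * l ≤ x / 2 ^ 32 := by
      rw [h5]; exact div_le_div_of_nonneg_right h4 (by positivity)
    have h7 : x / 2 ^ 20 + x / 2 ^ 32 ≤ x / 2 ^ 14 := by
      have : x / 2 ^ 20 + x / 2 ^ 32 = x * (1 / 2 ^ 20 + 1 / 2 ^ 32) := by ring
      rw [this, div_eq_mul_one_div x]
      gcongr
      norm_num
    linarith only [h6, h7]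
  calc 64 * (x * y) * h + 256 * l * (x * y ^ 2)
      ≤ 64 * (x * y) * (x * y / 2 ^ 26) + 256 * l * (x * y ^ 2) := by gcongr
    _ = (x / 2 ^ 20 + 256 * l) * (x * y ^ 2) := by ring
    _ ≤ (x / 2 ^ 14) * (x * y ^ 2) := by gcongr
    _ ≤ t * (x * y ^ 2) := by gcongr

lemma ghd {h : ℝ} (h1 : x * y / 2 ^ 27 ≤ h) : x ^ 2 * y ^ 2 / 2 ^ 27 ≤ h * (x * y) := by
  have xp := px F
  have yp := py F
  calc x ^ 2 * y ^ 2 / 2 ^ 27 = (x * y / 2 ^ 27) * (x * y) := by ring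
    _ ≤ h * (x * y) := by gcongr

lemma gk0 {k0 M h : ℝ} (hM0 : 0 ≤ M) (h1 : k0 ≤ y ^ 2 / 2 ^ 36) (h2 : M ≤ 9 * x)
    (h3 : x * y / 2 ^ 27 ≤ h) : 4 * k0 * M ^ 2 ≤ h * (x * y) := by
  have xp := px F
  have yp := py F
  refine le_trans ?_ (ghd F h3)
  calc 4 * k0 * M ^ 2 ≤ 4 * (y ^ 2 / 2 ^ 36) * (9 * x) ^ 2 := by gcongr
    _ = (x ^ 2 * y ^ 2) * (324 / 2 ^ 36) := by ring
    _ ≤ (x ^ 2 * y ^ 2) * (1 / 2 ^ 27) :=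
      mul_le_mul_of_nonneg_left (by norm_num) (by positivity)
    _ = x ^ 2 * y ^ 2 / 2 ^ 27 := by ring

lemma g215 {h : ℝ} (h3 : x * y / 2 ^ 27 ≤ h) : 2 ^ 15 * l * (x * y ^ 2) ≤ h * (x * y) := by
  have xp := px F
  have yp := py F
  refine le_trans ?_ (ghd F h3)
  have h1 : 2 ^ 15 * l ≤ x / 2 ^ 27 := by
    rw [le_div_iff₀ (by positivity)]
    refine le_trans (le_of_eq ?_) (F.c (2 ^ 42) (by norm_num))
    ring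
  calc 2 ^ 15 * l * (x * y ^ 2) ≤ (x / 2 ^ 27) * (x * y ^ 2) := by gcongr
    _ = x ^ 2 * y ^ 2 / 2 ^ 27 := by ring

lemma gkm {k0 km h : ℝ} (h1 : y ^ 2 / 2 ^ 37 ≤ k0) (h2 : km ≤ x * y ^ 2 / (2 ^ 80 * l))
    (h3 : x * y / 2 ^ 27 ≤ h) : 2 ^ 15 * l * (x * y ^ 2) * km ≤ k0 * h * (x * y) := by
  have xp := px F
  have yp := py F
  have lp := pl F
  have h4 := ghd F h3
  have k0p : 0 ≤ k0 := le_trans (by positivity) h1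
  calc 2 ^ 15 * l * (x * y ^ 2) * km
      ≤ 2 ^ 15 * l * (x * y ^ 2) * (x * y ^ 2 / (2 ^ 80 * l)) := by gcongr
    _ = (x ^ 2 * y ^ 4) * (2 ^ 15 / 2 ^ 80) := by field_simp
    _ ≤ (x ^ 2 * y ^ 4) * (1 / 2 ^ 64) :=
      mul_le_mul_of_nonneg_left (by norm_num) (by positivity)
    _ = (y ^ 2 / 2 ^ 37) * (x ^ 2 * y ^ 2 / 2 ^ 27) := by ring
    _ ≤ k0 * (h * (x * y)) := by gcongr
    _ = k0 * h * (x * y) := by ring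

lemma gDm {c2 Dm : ℝ} (h1 : c2 ≤ 2 ^ 23 * (l * y ^ 2)) (h2 : 2 ^ 29 * (l ^ 2 * (x * y ^ 4)) ≤ Dm) :
    8 * l * (x * y ^ 2) * (x * y ^ 2 + 2 * (2 * c2) * (x * y) + 8) ≤ Dm * (x * y) := by
  have xp := px F
  have yp := py F
  have lp := pl F
  have a1 : 2 * (2 * c2) * (x * y) ≤ 2 ^ 25 * (l * (x * y ^ 3)) := by
    calc 2 * (2 * c2) * (x * y) ≤ 2 * (2 * (2 ^ 23 * (l * y ^ 2))) * (x * y) := by gcongr
      _ = 2 ^ 25 * (l * (x * y ^ 3)) := by ring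
  have a2 : x * y ^ 2 ≤ l * (x * y ^ 3) := by
    calc x * y ^ 2 = 1 * (x * (y ^ 2 * 1)) := by ring
      _ ≤ l * (x * (y ^ 2 * y)) := by
        have := F.l1
        have := F.y1
        gcongr
      _ = l * (x * y ^ 3) := by ring
  have a3 : 8 ≤ x * y ^ 2 := le_trans (F.c0 8 (by norm_num)) F.xyy
  have h3 : x * y ^ 2 + 2 * (2 * c2) * (x * y) + 8 ≤ 2 ^ 26 * (l * (x * y ^ 3)) := by
    linarith only [a1, a2, a3]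
  calc 8 * l * (x * y ^ 2) * (x * y ^ 2 + 2 * (2 * c2) * (x * y) + 8)
      ≤ 8 * l * (x * y ^ 2) * (2 ^ 26 * (l * (x * y ^ 3))) := by gcongr
    _ = 2 ^ 29 * (l ^ 2 * (x * y ^ 4)) * (x * y) := by ring
    _ ≤ Dm * (x * y) := by gcongr

lemma gμ {K μ : ℝ} (h1 : 2 ^ 71 * (l ^ 2 * (x * y ^ 3)) ≤ K)
    (h2 : K ≤ 2 ^ 72 * (l ^ 2 * (x * y ^ 3))) (h3 : 2 ^ 80 * (l ^ 3 * y ^ 2) ≤ μ) :
    32 * l * (2 * (x * y ^ 2) + 2 * K + 8) ≤ μ * (x * y) := by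
  have xp := px F
  have yp := py F
  have lp := pl F
  have a1 : x * y ^ 2 ≤ l ^ 2 * (x * y ^ 3) := by
    calc x * y ^ 2 = 1 * (x * (y ^ 2 * 1)) := by ring
      _ ≤ l ^ 2 * (x * (y ^ 2 * y)) := by
        have h5 : 1 ≤ l ^ 2 := one_le_pow₀ F.l1
        have := F.y1
        gcongr
      _ = l ^ 2 * (x * y ^ 3) := by ring
  have a3 : 8 ≤ x * y ^ 2 := le_trans (F.c0 8 (by norm_num)) F.xyy
  have h4 : 2 * (x * y ^ 2) + 2 * K + 8 ≤ 5 * K := by linarith only [a1, a3, h1]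
  calc 32 * l * (2 * (x * y ^ 2) + 2 * K + 8) ≤ 32 * l * (5 * K) := by gcongr
    _ ≤ 32 * l * (5 * (2 ^ 72 * (l ^ 2 * (x * y ^ 3)))) := by gcongr
    _ = (l ^ 3 * x * y ^ 3) * (160 * 2 ^ 72) := by ring
    _ ≤ (l ^ 3 * x * y ^ 3) * 2 ^ 80 :=
      mul_le_mul_of_nonneg_left (by norm_num) (by positivity)
    _ = 2 ^ 80 * (l ^ 3 * y ^ 2) * (x * y) := by ring
    _ ≤ μ * (x * y) := by gcongr

lemma gcB {M B : ℝ} (h1 : M ≤ 9 * x) (h2 : x / (2 ^ 18 * l) ≤ B) :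
    6 * M ≤ 2 ^ 24 * l * B := by
  have xp := px F
  have lp := pl F
  calc 6 * M ≤ 6 * (9 * x) := by gcongr
    _ = x * 54 := by ring
    _ ≤ x * 64 := mul_le_mul_of_nonneg_left (by norm_num) xp.le
    _ = 2 ^ 24 * l * (x / (2 ^ 18 * l)) := by field_simp; norm_num
    _ ≤ 2 ^ 24 * l * B := by gcongr

lemma gc2B {c2 B : ℝ} (h1 : 2 ^ 22 * (l * y ^ 2) ≤ c2) (h2 : x / (2 ^ 18 * l) ≤ B) :
    6 * (x * y ^ 2) ≤ c2 * B := by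
  have xp := px F
  have yp := py F
  have lp := pl F
  have e : (x * y ^ 2) * 16 = 2 ^ 22 * (l * y ^ 2) * (x / (2 ^ 18 * l)) := by
    field_simp; norm_num
  have c2p : 0 ≤ c2 := le_trans (by positivity) h1
  calc 6 * (x * y ^ 2) = (x * y ^ 2) * 6 := by ring
    _ ≤ (x * y ^ 2) * 16 := mul_le_mul_of_nonneg_left (by norm_num) (by positivity)
    _ = 2 ^ 22 * (l * y ^ 2) * (x / (2 ^ 18 * l)) := e
    _ ≤ c2 * B := by gcongr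

lemma gb {B t Dm : ℝ} (hB : 0 ≤ B) (hD : 0 ≤ Dm) (h1 : B ≤ t / (6 * l)) (h2 : t ≤ x / 2 ^ 13)
    (ht : 4 ≤ t) (h3 : Dm ≤ 2 ^ 30 * (l ^ 2 * (x * y ^ 4))) :
    16 * B ^ 2 * (2 ^ 24 * l) ^ 2 * Dm ≤ (t - 2) * (2 ^ 65 * l ^ 2 * (x * y ^ 2) ^ 2) := by
  have xp := px F
  have yp := py F
  have lp := pl F
  have tp : 0 ≤ t := by linarith only [ht]
  have hb : t / 2 ≤ t - 2 := by linarith only [ht]
  have hBl : B * l ≤ t / 6 := by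
    calc B * l ≤ (t / (6 * l)) * l := by gcongr
      _ = t / 6 := by field_simp
  calc 16 * B ^ 2 * (2 ^ 24 * l) ^ 2 * Dm = 2 ^ 52 * (B * l) ^ 2 * Dm := by ring
    _ ≤ 2 ^ 52 * (t / 6) ^ 2 * (2 ^ 30 * (l ^ 2 * (x * y ^ 4))) := by gcongr
    _ = (t * t * (l ^ 2 * (x * y ^ 4))) * (2 ^ 82 / 36) := by ring
    _ ≤ (t * t * (l ^ 2 * (x * y ^ 4))) * (2 ^ 82 / 32) :=
      mul_le_mul_of_nonneg_left (by norm_num) (by positivity)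
    _ ≤ (t * (x / 2 ^ 13) * (l ^ 2 * (x * y ^ 4))) * (2 ^ 82 / 32) := by gcongr
    _ = (t / 2) * (2 ^ 65 * l ^ 2 * (x * y ^ 2) ^ 2) := by ring
    _ ≤ (t - 2) * (2 ^ 65 * l ^ 2 * (x * y ^ 2) ^ 2) := by gcongr

lemma gK {K : ℝ} (h1 : 2 ^ 71 * (l ^ 2 * (x * y ^ 3)) ≤ K) :
    36 * (2 ^ 65 * l ^ 2 * (x * y ^ 2) ^ 2) ≤ (x * y) * K := by
  have xp := px F
  have yp := py F
  calc 36 * (2 ^ 65 * l ^ 2 * (x * y ^ 2) ^ 2) = (2 ^ 65 * l ^ 2 * (x * y ^ 2) ^ 2) * 36 := by ring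
    _ ≤ (2 ^ 65 * l ^ 2 * (x * y ^ 2) ^ 2) * 64 :=
      mul_le_mul_of_nonneg_left (by norm_num) (by positivity)
    _ = (x * y) * (2 ^ 71 * (l ^ 2 * (x * y ^ 3))) := by ring
    _ ≤ (x * y) * K := by gcongr

lemma gfin {μ km h : ℝ} (h1 : μ ≤ 2 ^ 81 * (l ^ 3 * y ^ 2)) (h2 : x * y ^ 2 / (2 ^ 81 * l) ≤ km)
    (h3 : x * y / 2 ^ 27 ≤ h) :
    2 * (9 * (2 ^ 65 * l ^ 2 * (x * y ^ 2) ^ 2) + μ * (x * y) ^ 2) ≤ km * h * (x * y) := by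
  have xp := px F
  have yp := py F
  have lp := pl F
  have h4 := ghd F h3
  have h5 : l ^ 2 ≤ l ^ 3 := pow_le_pow_right₀ F.l1 (by norm_num)
  have h6 : 2 ^ 92 * (l ^ 3 * (x ^ 2 * y ^ 4)) ≤
      (x * y ^ 2 / (2 ^ 81 * l)) * (x ^ 2 * y ^ 2 / 2 ^ 27) := by
    rw [div_mul_div_comm, le_div_iff₀ (by positivity)]
    calc 2 ^ 92 * (l ^ 3 * (x ^ 2 * y ^ 4)) * (2 ^ 81 * l * 2 ^ 27)
        = (2 ^ 200 * l ^ 4) * (x ^ 2 * y ^ 4) := by ring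
      _ ≤ x * (x ^ 2 * y ^ 4) := mul_le_mul_of_nonneg_right F.xl4 (by positivity)
      _ = x * y ^ 2 * (x ^ 2 * y ^ 2) := by ring
  have kmp : 0 ≤ km := le_trans (by positivity) h2
  calc 2 * (9 * (2 ^ 65 * l ^ 2 * (x * y ^ 2) ^ 2) + μ * (x * y) ^ 2)
      ≤ 2 * (9 * (2 ^ 65 * l ^ 3 * (x * y ^ 2) ^ 2) +
        (2 ^ 81 * (l ^ 3 * y ^ 2)) * (x * y) ^ 2) := by gcongr
    _ = (l ^ 3 * (x ^ 2 * y ^ 4)) * (18 * 2 ^ 65 + 2 ^ 82) := by ring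
    _ ≤ (l ^ 3 * (x ^ 2 * y ^ 4)) * 2 ^ 92 :=
      mul_le_mul_of_nonneg_left (by norm_num) (by positivity)
    _ = 2 ^ 92 * (l ^ 3 * (x ^ 2 * y ^ 4)) := by ring
    _ ≤ (x * y ^ 2 / (2 ^ 81 * l)) * (x ^ 2 * y ^ 2 / 2 ^ 27) := h6
    _ ≤ km * (h * (x * y)) := by gcongr
    _ = km * h * (x * y) := by ring

end

theorem t_NUM2 : S_NUM2 := by
  intro n d L _ hn2 hL1 hd hdn
  have hn0 : 0 < n := lt_of_lt_of_le (by positivity) hn2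
  have hd0 : 0 < d := by
    rcases Nat.eq_zero_or_pos d with h | h
    · exfalso
      have h1 : 0 < 2 ^ 200 * L ^ 4 * n := by positivity
      have h2 := lt_of_lt_of_le h1 hd
      rw [h] at h2
      exact absurd h2 (by norm_num)
    · exact h
  obtain ⟨x, hx⟩ : ∃ x : ℝ, x = (d : ℝ) ^ 2 / n := ⟨_, rfl⟩
  obtain ⟨y, hy⟩ : ∃ y : ℝ, y = (n : ℝ) / d := ⟨_, rfl⟩
  obtain ⟨l, hl⟩ : ∃ l : ℝ, l = (L : ℝ) := ⟨_, rfl⟩
  have hnR : (0 : ℝ) < n := by exact_mod_cast hn0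
  have hdR : (0 : ℝ) < d := by exact_mod_cast hd0
  have ed : (d : ℝ) = x * y := by rw [hx, hy]; field_simp
  have en : (n : ℝ) = x * y ^ 2 := by rw [hx, hy]; field_simp
  have l1 : 1 ≤ l := by rw [hl]; exact_mod_cast hL1
  have hxl : 2 ^ 200 * l ^ 4 ≤ x := by
    rw [hx, hl, le_div_iff₀ hnR]
    exact_mod_cast hd
  have hy20 : (2 : ℝ) ^ 20 ≤ y := by
    rw [hy, le_div_iff₀ hdR]
    exact_mod_cast hdn
  have F := mkFc l1 hxl hy20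
  clear hxl hy20 hx hy hd hdn
  obtain ⟨t, ht⟩ : ∃ t : ℕ, t = ⌊x / 2 ^ 13⌋₊ := ⟨_, rfl⟩
  have bt := b_t F
  rw [← ht] at bt
  have t_4 : (4 : ℝ) ≤ (t : ℝ) := by
    refine le_trans ?_ bt.2
    rw [le_div_iff₀ (by positivity)]
    exact F.c0 _ (by norm_num)
  have t2 : 2 ≤ t := by
    have : (2 : ℝ) ≤ (t : ℝ) := by linarith only [t_4]
    exact_mod_cast this
  obtain ⟨t0, ht0⟩ : ∃ t0 : ℕ, t0 = ⌈8 * x⌉₊ := ⟨_, rfl⟩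
  have t0_ge : 8 * x ≤ (t0 : ℝ) := by rw [ht0]; exact Nat.le_ceil _
  have t0_lt : (t0 : ℝ) < 8 * x + 1 := by
    rw [ht0]; exact Nat.ceil_lt_add_one (mul_nonneg (by norm_num) (px F).le)
  have t0pos : 1 ≤ t0 := by
    have h1 : (0 : ℝ) < (t0 : ℝ) := by
      have := px F
      linarith only [this, t0_ge]
    exact_mod_cast h1
  obtain ⟨M, hM⟩ : ∃ M : ℕ, M + 1 = t0 + 6 * L := ⟨t0 + 6 * L - 1, by omega⟩
  have hMR : (M : ℝ) + 1 = t0 + 6 * l := by rw [hl]; exact_mod_cast hM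
  have M_le : (M : ℝ) ≤ 9 * x := by
    have := F.c 6 (by norm_num)
    linarith only [this, hMR, t0_lt]
  obtain ⟨h, hh⟩ : ∃ h : ℕ, h = ⌊x * y / 2 ^ 26⌋₊ := ⟨_, rfl⟩
  have bh := b_h F
  rw [← hh] at bh
  obtain ⟨k0, hk0⟩ : ∃ k0 : ℕ, k0 = ⌊y ^ 2 / 2 ^ 36⌋₊ := ⟨_, rfl⟩
  have bk := b_k0 F
  rw [← hk0] at bk
  obtain ⟨km, hkm⟩ : ∃ km : ℕ, km = ⌊x * y ^ 2 / (2 ^ 80 * l)⌋₊ := ⟨_, rfl⟩
  have bkm := b_km F
  rw [← hkm] at bkm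
  obtain ⟨B, hB⟩ : ∃ B : ℕ, B = ⌊(t : ℝ) / (6 * l)⌋₊ := ⟨_, rfl⟩
  have bB := b_B F bt.2
  rw [← hB] at bB
  obtain ⟨c2, hc2⟩ : ∃ c2 : ℕ, c2 = ⌈2 ^ 22 * (l * y ^ 2)⌉₊ := ⟨_, rfl⟩
  have bc2 := b_c2 F
  rw [← hc2] at bc2
  obtain ⟨Dm, hDm⟩ : ∃ Dm : ℕ, Dm = ⌈2 ^ 29 * (l ^ 2 * (x * y ^ 4))⌉₊ := ⟨_, rfl⟩
  have bD := b_Dm F
  rw [← hDm] at bD
  obtain ⟨K, hK⟩ : ∃ K : ℕ, K = ⌈2 ^ 71 * (l ^ 2 * (x * y ^ 3))⌉₊ := ⟨_, rfl⟩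
  have bK := b_K F
  rw [← hK] at bK
  obtain ⟨μ, hμ⟩ : ∃ μ : ℕ, μ = ⌈2 ^ 80 * (l ^ 3 * y ^ 2)⌉₊ := ⟨_, rfl⟩
  have bμ := b_μ F
  rw [← hμ] at bμ
  clear ht0 hh hk0 hkm hB hc2 hDm hK hμ ht
  refine ⟨h, t, t0, M, B, 2 ^ 24 * L, c2, Dm, K, μ, km, 2 ^ 65 * L ^ 2 * n ^ 2, k0, ?_, ?_, ?_, ?_,
    ?_, ?_, ?_, ?_, hM, ?_, ?_, ?_, ?_, ?_, ?_, ?_, ?_, ?_, ?_, ?_, ?_, ?_, ?_, ?_, ?_⟩
  · -- 4096 ≤ d
    have : (4096 : ℝ) ≤ (d : ℝ) := by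
      rw [ed]; exact F.xy _ (by norm_num)
    exact_mod_cast this
  · -- 3 ≤ t
    have : (3 : ℝ) ≤ (t : ℝ) := by linarith only [t_4]
    exact_mod_cast this
  · -- 2 ≤ B
    have : (2 : ℝ) ≤ (B : ℝ) := by
      refine le_trans ?_ bB.2
      have := pl F
      rw [le_div_iff₀ (by positivity)]
      refine le_trans (le_of_eq ?_) (F.c (2 ^ 19) (by norm_num))
      ring
    exact_mod_cast this
  · -- 1 ≤ h
    have : (1 : ℝ) ≤ (h : ℝ) := by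
      refine le_trans ?_ bh.2
      rw [le_div_iff₀ (by positivity)]
      exact F.xy _ (by norm_num)
    exact_mod_cast this
  · -- 8 h ≤ n
    have := g8h F bh.1
    rw [← en] at this
    exact_mod_cast this
  · -- 8192 (t n) ≤ d ^ 2
    have := g8192 F bt.1
    rw [← en, ← ed] at this
    exact_mod_cast this
  · -- 12 L ≤ t
    have : 12 * (L : ℝ) ≤ (t : ℝ) := by
      rw [← hl]
      refine le_trans ?_ bt.2
      rw [le_div_iff₀ (by positivity)]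
      refine le_trans (le_of_eq ?_) (F.c (12 * 2 ^ 14) (by norm_num))
      ring
    exact_mod_cast this
  · -- 8 d ^ 2 ≤ n t0
    have := gt0 F t0_ge
    rw [← en, ← ed] at this
    exact_mod_cast this
  · -- 64 d h + 256 L n ≤ t n
    have := g256 F bh.1 bt.2
    rw [← en, ← ed, hl] at this
    exact_mod_cast this
  · -- 1 ≤ k0
    have : (1 : ℝ) ≤ (k0 : ℝ) := by
      refine le_trans ?_ bk.2
      rw [le_div_iff₀ (by positivity)]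
      exact le_trans (by norm_num) F.yy
    exact_mod_cast this
  · -- 4 k0 M ^ 2 ≤ h d
    have := gk0 F (Nat.cast_nonneg M) bk.1 M_le bh.2
    rw [← ed] at this
    exact_mod_cast this
  · -- 2 ^ 15 L n ≤ h d
    have := g215 F bh.2
    rw [← en, ← ed, hl] at this
    exact_mod_cast this
  · -- 2 ^ 15 L n km ≤ k0 h d
    have := gkm F bk.2 bkm.1 bh.2
    rw [← en, ← ed, hl] at this
    exact_mod_cast this
  · -- 8 L n (n + 2 (2 c2) d + 8) ≤ Dm d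
    have := gDm F bc2.2 bD.1
    rw [← en, ← ed, hl] at this
    exact_mod_cast this
  · -- 32 L (2 n + 2 K + 8) ≤ μ d
    have := gμ F bK.1 bK.2 bμ.1
    rw [← en, ← ed, hl] at this
    exact_mod_cast this
  · -- 6 L B ≤ t
    have : 6 * (L : ℝ) * (B : ℝ) ≤ (t : ℝ) := by
      rw [← hl]
      have lp := pl F
      calc 6 * l * (B : ℝ) ≤ 6 * l * ((t : ℝ) / (6 * l)) :=
            mul_le_mul_of_nonneg_left bB.1 (by positivity)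
        _ = (t : ℝ) := by field_simp
    exact_mod_cast this
  · -- 6 M ≤ c B
    have := gcB F M_le bB.2
    rw [hl] at this
    exact_mod_cast this
  · -- 6 L ≤ c
    exact Nat.mul_le_mul_right L (by norm_num)
  · -- 6 n ≤ c2 B
    have := gc2B F bc2.1 bB.2
    rw [← en] at this
    exact_mod_cast this
  · -- 6 L ≤ c2
    have : 6 * (L : ℝ) ≤ (c2 : ℝ) := by
      rw [← hl]
      refine le_trans ?_ bc2.1
      have lp := pl F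
      calc 6 * l ≤ 2 ^ 22 * l := mul_le_mul_of_nonneg_right (by norm_num) lp.le
        _ ≤ 2 ^ 22 * (l * y ^ 2) := mul_le_mul_of_nonneg_left F.ly (by norm_num)
    exact_mod_cast this
  · -- 16 B ^ 2 c ^ 2 Dm ≤ (t - 2) b
    have := gb F (Nat.cast_nonneg B) (Nat.cast_nonneg Dm) bB.1 bt.1 t_4 bD.2
    have e2 : (t : ℝ) - 2 = ((t - 2 : ℕ) : ℝ) := by
      rw [Nat.cast_sub t2]; norm_num
    rw [e2, ← en, hl] at this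
    exact_mod_cast this
  · -- 36 b ≤ d K
    have := gK F bK.1
    rw [← en, ← ed, hl] at this
    exact_mod_cast this
  · -- 2 (9 b + μ d ^ 2) ≤ km h d
    have := gfin F bμ.2 bkm.2 bh.2
    rw [← en, ← ed, hl] at this
    exact_mod_cast this
  · -- km ≤ n
    have : (km : ℝ) ≤ (n : ℝ) := by
      rw [en]
      have xp := px F
      have yp := py F
      refine le_trans bkm.1 (div_le_self (by positivity) ?_)
      exact one_le_mul_of_one_le_of_one_le (by norm_num) F.l1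
    exact_mod_cast this

end Pool.Agent.K1H18.SQ
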